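import Mathlib

/-!
# First exit distances and the uniform average over directions
-/

open MeasureTheory Set Metric
open scoped Pointwise

noncomputable section

namespace Pool.Agent.V1282.TR

/-- Euclidean three-space. -/
abbrev E3 := EuclideanSpace ℝ (Fin 3)

/-- The unit sphere of directions. -/
abbrev S2 := Metric.sphere (0 : E3) 1

/-- The first-exit distance from `V` of the ray starting at `r` in the direction `w`. -/
def exitDist (V : Set E3) (r : E3) (w : S2) : ℝ :=
  sInf {t : ℝ | 0 < t ∧ r + t • (w : E3) ∉ V}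

/-- The surface measure on the unit sphere, of total mass `4π`. -/
def surf : Measure S2 := (volume : Measure E3).toSphere

lemma surf_univ : surf univ = ENNReal.ofReal (4 * Real.pi) := by
  rw [surf, Measure.toSphere_apply_univ, EuclideanSpace.volume_ball_fin_three]
  have h1 : ((Module.finrank ℝ E3 : ℕ) : ENNReal) = ENNReal.ofReal 3 := by
    simp
  rw [h1, ENNReal.ofReal_one, one_pow, one_mul, ← ENNReal.ofReal_mul (by norm_num)]
  congr 1
  ring

lemma exit_nonneg (V : Set E3) (r : E3) (w : S2) : 0 ≤ exitDist V r w :=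
  Real.sInf_nonneg fun _ ht => ht.1.le

lemma norm_dir (w : S2) : ‖(w : E3)‖ = 1 := by
  simp

lemma exit_set_nonempty {V : Set E3} {L : ℝ} (hL : 0 < L) (hV : ∀ x ∈ V, ‖x‖ < L) {r : E3}
    (hr : r ∈ V) (w : S2) : (2 * L) ∈ {t : ℝ | 0 < t ∧ r + t • (w : E3) ∉ V} := by
  refine ⟨by linarith, fun h => ?_⟩
  have h1 := hV _ h
  have h2 := hV _ hr
  have h3 : ‖(2 * L) • (w : E3)‖ ≤ ‖r + (2 * L) • (w : E3)‖ + ‖r‖ := by
    have := norm_sub_le (r + (2 * L) • (w : E3)) r
    simpa using this
  rw [norm_smul, norm_dir, Real.norm_of_nonneg (by linarith)] at h3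
  linarith

lemma lt_exit_iff {V : Set E3} (hVo : IsOpen V) {L : ℝ} (hL : 0 < L) (hV : ∀ x ∈ V, ‖x‖ < L)
    {r : E3} (hr : r ∈ V) (w : S2) {t : ℝ} (ht : 0 ≤ t) :
    t < exitDist V r w ↔ ∀ s ∈ Icc 0 t, r + s • (w : E3) ∈ V := by
  constructor
  · intro h s hs
    rcases hs.1.eq_or_lt with h0 | h0
    · rw [← h0]; simpa using hr
    · by_contra hc
      have : exitDist V r w ≤ s := csInf_le ⟨0, fun _ h => h.1.le⟩ ⟨h0, hc⟩
      linarith [hs.2]
  · intro h
    have hcont : ContinuousAt (fun s : ℝ => r + s • (w : E3)) t := by fun_prop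
    have hmem : (fun s : ℝ => r + s • (w : E3)) t ∈ V := h t ⟨ht, le_rfl⟩
    have := hcont.preimage_mem_nhds (hVo.mem_nhds hmem)
    obtain ⟨ε, hε, hball⟩ := Metric.mem_nhds_iff.1 this
    have : t + ε ≤ exitDist V r w := by
      apply le_csInf ⟨_, exit_set_nonempty hL hV hr w⟩
      rintro s ⟨hs0, hs⟩
      by_contra hc
      push Not at hc
      apply hs
      by_cases hst : s ≤ t
      · exact h s ⟨hs0.le, hst⟩
      · push Not at hst
        exact hball (by rw [Metric.mem_ball, Real.dist_eq, abs_of_pos (by linarith)]; linarith)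
    linarith

lemma exit_le {V : Set E3} {L : ℝ} (hL : 0 < L) (hV : ∀ x ∈ V, ‖x‖ < L)
    {r : E3} (hr : r ∈ V) (w : S2) : exitDist V r w ≤ 2 * L :=
  csInf_le ⟨0, fun _ h => h.1.le⟩ (exit_set_nonempty hL hV hr w)

lemma mem_of_lt_exit {V : Set E3} {r : E3} {w : S2} {s : ℝ} (h0 : 0 < s)
    (h : s < exitDist V r w) : r + s • (w : E3) ∈ V := by
  by_contra hc
  have : exitDist V r w ≤ s := csInf_le ⟨0, fun _ h => h.1.le⟩ ⟨h0, hc⟩
  linarith

open Classical in
/-- The exit distance, set to `0` outside `V`. -/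
def Dm (V : Set E3) (r : E3) (w : S2) : ℝ := if r ∈ V then exitDist V r w else 0

lemma Dm_nonneg (V : Set E3) (r : E3) (w : S2) : 0 ≤ Dm V r w := by
  unfold Dm; split_ifs
  · exact exit_nonneg V r w
  · exact le_rfl

lemma Dm_le {V : Set E3} {L : ℝ} (hL : 0 < L) (hV : ∀ x ∈ V, ‖x‖ < L) (r : E3) (w : S2) :
    Dm V r w ≤ 2 * L := by
  unfold Dm; split_ifs with h
  · exact exit_le hL hV h w
  · linarith

lemma Dm_meas {V : Set E3} (hVo : IsOpen V) {L : ℝ} (hL : 0 < L) (hV : ∀ x ∈ V, ‖x‖ < L) :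
    Measurable (fun p : E3 × S2 => Dm V p.1 p.2) := by
  apply measurable_of_Ioi
  intro t
  by_cases ht : 0 ≤ t
  · have heq : (fun p : E3 × S2 => Dm V p.1 p.2) ⁻¹' Ioi t
        = {p : E3 × S2 | ∀ s ∈ Icc 0 t, p.1 + s • (p.2 : E3) ∈ V} := by
      ext p
      simp only [mem_preimage, mem_Ioi, mem_ofPred_eq]
      by_cases hp : p.1 ∈ V
      · rw [Dm, if_pos hp]
        exact lt_exit_iff hVo hL hV hp p.2 ht
      · rw [Dm, if_neg hp]
        constructor
        · intro h; linarith
        · intro h; exact absurd (by simpa using h 0 ⟨le_rfl, ht⟩) hp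
    rw [heq]
    apply IsOpen.measurableSet
    rw [isOpen_iff_eventually]
    intro p hp
    refine isCompact_Icc.eventually_forall_of_forall_eventually (fun s hs => ?_)
    have hcont : Continuous (fun z : (E3 × S2) × ℝ => z.1.1 + z.2 • (z.1.2 : E3)) := by fun_prop
    exact hcont.continuousAt.preimage_mem_nhds (hVo.mem_nhds (hp s hs))
  · have : (fun p : E3 × S2 => Dm V p.1 p.2) ⁻¹' Ioi t = univ := by
      ext p
      simp only [mem_preimage, mem_Ioi, mem_univ, iff_true]
      have := Dm_nonneg V p.1 p.2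
      linarith
    rw [this]; exact MeasurableSet.univ

/-- The uniform probability measure on directions. -/
def nu : Measure S2 := (ENNReal.ofReal (4 * Real.pi))⁻¹ • surf

lemma four_pi_pos : (0 : ℝ) < 4 * Real.pi := by positivity

instance : IsProbabilityMeasure nu := by
  refine ⟨?_⟩
  rw [nu, Measure.smul_apply, surf_univ, smul_eq_mul]
  exact ENNReal.inv_mul_cancel (by simpa using Real.pi_pos) ENNReal.ofReal_ne_top

lemma integral_nu (f : S2 → ℝ) : ∫ w, f w ∂nu = (4 * Real.pi)⁻¹ * ∫ w, f w ∂surf := by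
  rw [nu, integral_smul_measure, smul_eq_mul, ENNReal.toReal_inv,
    ENNReal.toReal_ofReal four_pi_pos.le]

/-- Directions nearly parallel to the plane `x₁ = 0` have small measure. -/
lemma exists_cap {ε : ℝ} (hε : 0 < ε) :
    ∃ η : ℝ, 0 < η ∧ η ≤ 1 ∧ nu.real {w : S2 | |(w : E3) 1| < η} ≤ ε := by
  set A : ℕ → Set S2 := fun n => {w : S2 | |(w : E3) 1| < 1 / (n + 1 : ℝ)} with hA
  have hopen : ∀ n, MeasurableSet (A n) := fun n => by
    apply IsOpen.measurableSet
    have hc : Continuous (fun w : S2 => |(w : E3) 1|) := by fun_prop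
    exact isOpen_lt hc continuous_const
  have hanti : Antitone A := by
    intro m n hmn w hw
    have hw' : |(w : E3) 1| < 1 / (n + 1 : ℝ) := hw
    have : (1 : ℝ) / (n + 1) ≤ 1 / (m + 1) := by
      have : (m : ℝ) ≤ n := by exact_mod_cast hmn
      apply one_div_le_one_div_of_le (by positivity); linarith
    exact lt_of_lt_of_le hw' this
  have hinter : ⋂ n, A n = {w : S2 | (w : E3) 1 = 0} := by
    ext w
    simp only [hA, mem_iInter, mem_ofPred_eq]
    constructor
    · intro h
      by_contra hne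
      obtain ⟨n, hn⟩ := exists_nat_one_div_lt (abs_pos.2 hne)
      exact absurd (h n) (by push Not; exact hn.le)
    · intro h n
      rw [h, abs_zero]; positivity
  have hzero : nu {w : S2 | (w : E3) 1 = 0} = 0 := by
    have hmeas : MeasurableSet {w : S2 | (w : E3) 1 = 0} := by
      rw [← hinter]; exact MeasurableSet.iInter hopen
    have h0 : surf {w : S2 | (w : E3) 1 = 0} = 0 := by
      rw [surf, Measure.toSphere_apply' _ hmeas]
      have hsub : (Ioo (0 : ℝ) 1 • ((↑) '' {w : S2 | (w : E3) 1 = 0} : Set E3))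
          ⊆ (LinearMap.ker (EuclideanSpace.proj (1 : Fin 3) : E3 →L[ℝ] ℝ).toLinearMap : Set E3) := by
        rintro x ⟨a, ha, y, ⟨w, hw, rfl⟩, rfl⟩
        have hw' : (w : E3) 1 = 0 := hw
        simp [hw']
      have hker : (volume : Measure E3)
          (LinearMap.ker (EuclideanSpace.proj (1 : Fin 3) : E3 →L[ℝ] ℝ).toLinearMap : Set E3) = 0 := by
        apply Measure.addHaar_submodule
        intro htop
        have : (EuclideanSpace.single (1 : Fin 3) (1 : ℝ)) ∈
            LinearMap.ker (EuclideanSpace.proj (1 : Fin 3) : E3 →L[ℝ] ℝ).toLinearMap := by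
          rw [htop]; trivial
        simp at this
      have := measure_mono_null hsub hker
      rw [this]; simp
    rw [nu, Measure.smul_apply, h0, smul_zero]
  have ht := tendsto_measure_iInter_atTop (μ := nu) (fun n => (hopen n).nullMeasurableSet) hanti
    ⟨0, measure_ne_top _ _⟩
  rw [hinter, hzero] at ht
  have hev : ∀ᶠ n in Filter.atTop, nu (A n) < ENNReal.ofReal ε :=
    ht.eventually_lt_const (by simpa using hε)
  obtain ⟨n, hn⟩ := hev.exists
  refine ⟨1 / (n + 1 : ℝ), by positivity, ?_, ?_⟩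
  · rw [div_le_one (by positivity)]
    have : (0 : ℝ) ≤ n := by positivity
    linarith
  · have := ENNReal.toReal_mono ENNReal.ofReal_ne_top hn.le
    rw [ENNReal.toReal_ofReal hε.le] at this
    exact this

end Pool.Agent.V1282.TR
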