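import Pool.Agent.V1282.TR.Ops

/-!
# Solvability and differentiability in the parameter
-/

open MeasureTheory Set Metric Filter Topology

noncomputable section

namespace Pool.Agent.V1282.TR

lemma sup_lemma {f : E3 → ℝ} (hbd : ∃ C, ∀ x, f x ≤ C) {a q : ℝ} (ha : 0 ≤ a)
    (hq0 : 0 ≤ q) (hq : q < 1)
    (H : ∀ C, 0 ≤ C → (∀ x, f x ≤ C) → ∀ x, f x ≤ a + q * C) : ∀ x, f x ≤ a / (1 - q) := by
  obtain ⟨C, hC⟩ := hbd
  have hA : 0 ≤ a / (1 - q) := div_nonneg ha (by linarith)
  have hA2 : a + q * (a / (1 - q)) = a / (1 - q) := by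
    have : (1 - q) ≠ 0 := by linarith
    field_simp
    ring
  have key : ∀ n : ℕ, ∀ x, f x ≤ a / (1 - q) + q ^ n * max C 0 := by
    intro n
    induction n with
    | zero =>
      intro x
      have := hC x
      have h2 := le_max_left C 0
      simp only [pow_zero, one_mul]; linarith
    | succ n ih =>
      intro x
      have h0 : 0 ≤ a / (1 - q) + q ^ n * max C 0 := by positivity
      have := H _ h0 ih x
      calc f x ≤ a + q * (a / (1 - q) + q ^ n * max C 0) := this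
        _ = (a + q * (a / (1 - q))) + q ^ (n + 1) * max C 0 := by ring
        _ = _ := by rw [hA2]
  intro x
  have ht : Tendsto (fun n : ℕ => a / (1 - q) + q ^ n * max C 0) atTop
      (𝓝 (a / (1 - q) + 0 * max C 0)) :=
    ((tendsto_pow_atTop_nhds_zero_of_lt_one hq0 hq).mul_const _).const_add _
  have := ge_of_tendsto ht (Eventually.of_forall fun n => key n x)
  simpa using this

lemma fixed_point {T : (E3 → ℝ) → (E3 → ℝ)} {q : ℝ} (hq0 : 0 ≤ q) (hq : q < 1)
    (hT : ∀ f, Bd f → Bd (T f))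
    (hc : ∀ f g, Bd f → Bd g → ∀ C, (∀ r, |f r - g r| ≤ C) → ∀ r, |T f r - T g r| ≤ q * C) :
    ∃ u, Bd u ∧ ∀ r, u r = T u r := by
  set s : ℕ → E3 → ℝ := fun n => Nat.rec (fun _ => 0) (fun _ f => T f) n with hsdef
  have hs0 : s 0 = fun _ => 0 := rfl
  have hss : ∀ n, s (n + 1) = T (s n) := fun n => rfl
  have hs : ∀ n, Bd (s n) := by
    intro n
    induction n with
    | zero => exact ⟨measurable_const, 0, fun x => by simp [hs0]⟩
    | succ n ih => rw [hss]; exact hT _ ih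
  obtain ⟨C0, hC00, hC0⟩ := (hs 1).exists_nonneg
  have hd : ∀ n r, |s n r - s (n + 1) r| ≤ C0 * q ^ n := by
    intro n
    induction n with
    | zero =>
      intro r
      have := hC0 r
      simpa [hs0] using this
    | succ n ih =>
      intro r
      have := hc (s n) (s (n + 1)) (hs n) (hs (n + 1)) _ ih r
      rw [hss (n + 1)]
      nth_rewrite 1 [hss n]
      calc _ ≤ _ := this
        _ = _ := by ring
  have hcau : ∀ r, CauchySeq (fun n => s n r) := fun r =>
    cauchySeq_of_le_geometric q C0 hq (fun n => by rw [Real.dist_eq]; exact hd n r)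
  choose u hu using fun r => cauchySeq_tendsto_of_complete (hcau r)
  have hdu : ∀ n r, |s n r - u r| ≤ C0 * q ^ n / (1 - q) := fun n r => by
    have := dist_le_of_le_geometric_of_tendsto q C0 hq
      (fun n => by rw [Real.dist_eq]; exact hd n r) (hu r) n
    rwa [Real.dist_eq] at this
  have hub : Bd u := by
    refine ⟨measurable_of_tendsto_metrizable (fun n => (hs n).1) (tendsto_pi_nhds.2 hu),
      C0 / (1 - q), fun r => ?_⟩
    have := hdu 0 r
    simpa [hs0] using this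
  refine ⟨u, hub, fun r => ?_⟩
  have hb : ∀ n : ℕ, |u r - T u r| ≤ 2 * (C0 / (1 - q)) * q ^ (n + 1) := by
    intro n
    have h1 := hdu (n + 1) r
    have h2 := hc (s n) u (hs n) hub _ (hdu n) r
    rw [← hss n] at h2
    rw [abs_sub_comm] at h1
    calc |u r - T u r| ≤ |u r - s (n + 1) r| + |s (n + 1) r - T u r| := abs_sub_le _ _ _
      _ ≤ _ := add_le_add h1 h2
      _ = _ := by ring
  have ht : Tendsto (fun n : ℕ => 2 * (C0 / (1 - q)) * q ^ (n + 1)) atTop
      (𝓝 (2 * (C0 / (1 - q)) * 0)) :=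
    ((tendsto_pow_atTop_nhds_zero_of_lt_one hq0 hq).comp (tendsto_add_atTop_nat 1)).const_mul _
  have h0 : |u r - T u r| ≤ 0 := by
    have := ge_of_tendsto ht (Eventually.of_forall hb)
    simpa using this
  have := abs_eq_zero.1 (le_antisymm h0 (abs_nonneg _))
  linarith

lemma Av_kl_contr {V : Set E3} {L : ℝ} (h : Dom V L) {lam K : ℝ} (hl : 0 < lam) (hlK : lam ≤ K)
    {f : E3 → ℝ} (hf : Bd f) {C : ℝ} (hC : ∀ x, |f x| ≤ C) (r : E3) (w : S2) :
    |J V (kl lam) f r w| ≤ (1 - Real.exp (-K * (2 * L))) * C := by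
  have hC0 : 0 ≤ C := (abs_nonneg _).trans (hC 0)
  refine (J_kl_bound h hl hf hC r w).trans ?_
  rw [mul_comm]
  apply mul_le_mul_of_nonneg_right _ hC0
  have : Real.exp (-K * (2 * L)) ≤ Real.exp (-lam * Dm V r w) := by
    apply Real.exp_le_exp.2
    have h1 := Dm_nonneg V r w
    have h2 := Dm_le h.pos h.bd r w
    have h3 : lam * Dm V r w ≤ K * (2 * L) :=
      mul_le_mul hlK h2 h1 (by linarith)
    linarith
  linarith

lemma q_nonneg {L K : ℝ} (hL : 0 < L) (hK : 0 ≤ K) : 0 ≤ 1 - Real.exp (-K * (2 * L)) := by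
  have : Real.exp (-K * (2 * L)) ≤ 1 := Real.exp_le_one_iff.2 (by nlinarith)
  linarith

lemma q_lt {L K : ℝ} : 1 - Real.exp (-K * (2 * L)) < 1 := by
  have := Real.exp_pos (-K * (2 * L))
  linarith

lemma Av_sub {V : Set E3} {L : ℝ} (h : Dom V L) {k : ℝ → ℝ} (hk : Continuous k)
    {f g : E3 → ℝ} (hf : Bd f) (hg : Bd g) (r : E3) :
    Av V k f r - Av V k g r = Av V k (fun r => 1 * f r + (-1) * g r) r := by
  rw [Av_comb_f h hk hf hg]; ring

lemma exists_sol {V : Set E3} {L : ℝ} (h : Dom V L) {lam : ℝ} (hl : 0 < lam) {H : E3 → ℝ}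
    (hH : Bd H) : ∃ u, Bd u ∧ ∀ r, u r = H r + Av V (kl lam) u r := by
  refine fixed_point (T := fun f r => H r + Av V (kl lam) f r) (q_nonneg h.pos hl.le) q_lt ?_ ?_
  · intro f hf
    have := hH.comb (Av_Bd h (kl_cont lam) hf) 1 1
    simpa using this
  · intro f g hf hg C hC r
    have h1 : (H r + Av V (kl lam) f r) - (H r + Av V (kl lam) g r)
        = Av V (kl lam) (fun r => 1 * f r + (-1) * g r) r := by
      rw [← Av_sub h (kl_cont lam) hf hg]; ring
    show |(H r + Av V (kl lam) f r) - (H r + Av V (kl lam) g r)| ≤ _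
    rw [h1]
    refine Av_le_const h (kl_cont lam) (hf.comb hg 1 (-1)) fun w => ?_
    exact Av_kl_contr h hl le_rfl (hf.comb hg 1 (-1)) (fun x => by
      have := hC x
      rwa [show 1 * f x + -1 * g x = f x - g x by ring]) r w

lemma sol_unique {V : Set E3} {L : ℝ} (h : Dom V L) {lam : ℝ} (hl : 0 < lam) {H : E3 → ℝ}
    {u v : E3 → ℝ} (hu : Bd u) (hv : Bd v) (hue : ∀ r, u r = H r + Av V (kl lam) u r)
    (hve : ∀ r, v r = H r + Av V (kl lam) v r) : u = v := by
  have hR := hu.comb hv 1 (-1)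
  obtain ⟨C0, hC0⟩ := hR.2
  have key := sup_lemma (f := fun r => |1 * u r + (-1) * v r|) ⟨C0, hC0⟩ le_rfl
    (q_nonneg h.pos hl.le) q_lt (by
      intro C _ hC r
      have h1 : 1 * u r + (-1) * v r = Av V (kl lam) (fun r => 1 * u r + (-1) * v r) r := by
        rw [← Av_sub h (kl_cont lam) hu hv]
        nth_rewrite 1 [hue r]
        nth_rewrite 1 [hve r]
        ring
      show |1 * u r + (-1) * v r| ≤ _
      rw [h1, zero_add]
      exact Av_le_const h (kl_cont lam) hR fun w => Av_kl_contr h hl le_rfl hR hC r w)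
  ext r
  have := key r
  rw [zero_div] at this
  have h0 := abs_eq_zero.1 (le_antisymm this (abs_nonneg _))
  linarith

lemma J_const_bound {V : Set E3} {L : ℝ} (h : Dom V L) {k : ℝ → ℝ} (hk : Continuous k) {b : ℝ}
    (hb : ∀ x ∈ Icc 0 (2 * L), |k x| ≤ b) {f : E3 → ℝ} (hf : Bd f)
    {C : ℝ} (hC : ∀ x, |f x| ≤ C) (r : E3) (w : S2) :
    |J V k f r w| ≤ C * (b * (2 * L)) := by
  have hC0 : 0 ≤ C := (abs_nonneg _).trans (hC 0)
  have hb0 : 0 ≤ b := (abs_nonneg _).trans (hb 0 ⟨le_rfl, by linarith [h.pos]⟩)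
  refine (J_bound h hk continuous_const hb hf hC r w).trans ?_
  apply mul_le_mul_of_nonneg_left _ hC0
  rw [intervalIntegral.integral_const, sub_zero, smul_eq_mul, mul_comm]
  exact mul_le_mul_of_nonneg_left (Dm_le h.pos h.bd r w) hb0

lemma kernel2 {K t x : ℝ} (hK : 0 < K) (ht : |t| ≤ 1 / (K + 1)) (hx : x ∈ Icc 0 K) :
    |1 * kl (1 + t) x + (-1) * (1 * kl 1 x + t * kp x)| ≤ (K + 2 * K ^ 2) * t ^ 2 := by
  have ht1 : |t| ≤ 1 := ht.trans (by rw [div_le_one (by linarith)]; linarith)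
  have htx : |-(t * x)| ≤ 1 := by
    rw [abs_neg, abs_mul, abs_of_nonneg hx.1]
    calc |t| * x ≤ 1 / (K + 1) * K := mul_le_mul ht hx.2 hx.1 (by positivity)
      _ ≤ 1 := by rw [div_mul_eq_mul_div, div_le_one (by linarith)]; linarith
  have hρ := Real.abs_exp_sub_one_sub_id_le htx
  set ρ := Real.exp (-(t * x)) - 1 - -(t * x) with hρd
  have he : Real.exp (-(1 + t) * x) = Real.exp (-x) * Real.exp (-(t * x)) := by
    rw [← Real.exp_add]; congr 1; ring
  have he2 : Real.exp (-(t * x)) = 1 - t * x + ρ := by rw [hρd]; ring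
  have h1 : 1 * kl (1 + t) x + (-1) * (1 * kl 1 x + t * kp x)
      = Real.exp (-x) * (-(t ^ 2 * x) + (1 + t) * ρ) := by
    unfold kl kp
    rw [he, he2, show (-1 : ℝ) * x = -x by ring]
    ring
  rw [h1, abs_mul, abs_of_pos (Real.exp_pos _)]
  have h2 : Real.exp (-x) ≤ 1 := Real.exp_le_one_iff.2 (by linarith [hx.1])
  have h3 : |-(t ^ 2 * x) + (1 + t) * ρ| ≤ t ^ 2 * K + 2 * (t ^ 2 * K ^ 2) := by
    refine (abs_add_le _ _).trans ?_
    rw [abs_neg, abs_mul, abs_mul, abs_of_nonneg (sq_nonneg t), abs_of_nonneg hx.1]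
    apply add_le_add (mul_le_mul_of_nonneg_left hx.2 (sq_nonneg _))
    apply mul_le_mul _ _ (abs_nonneg _) (by norm_num)
    · refine (abs_add_le _ _).trans ?_
      rw [abs_one]; linarith
    · refine hρ.trans ?_
      rw [neg_sq, mul_pow]
      exact mul_le_mul_of_nonneg_left (pow_le_pow_left₀ hx.1 hx.2 2) (sq_nonneg _)
  calc Real.exp (-x) * |-(t ^ 2 * x) + (1 + t) * ρ|
      ≤ 1 * (t ^ 2 * K + 2 * (t ^ 2 * K ^ 2)) :=
        mul_le_mul h2 h3 (abs_nonneg _) zero_le_one
    _ = _ := by ring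

lemma kernel1 {K t x : ℝ} (hK : 0 < K) (ht : |t| ≤ 1 / (K + 1)) (hx : x ∈ Icc 0 K) :
    |1 * kl (1 + t) x + (-1) * kl 1 x| ≤ (2 + (K + 2 * K ^ 2)) * |t| := by
  have ht1 : |t| ≤ 1 := ht.trans (by rw [div_le_one (by linarith)]; linarith)
  have h1 := kernel2 hK ht hx
  have h2 : |kp x| ≤ 2 := by
    refine (kp_bound x hx.1).trans ?_
    have : Real.exp (-(1 / 2) * x) ≤ 1 := Real.exp_le_one_iff.2 (by linarith [hx.1])
    linarith
  have h3 : 1 * kl (1 + t) x + (-1) * kl 1 x
      = (1 * kl (1 + t) x + (-1) * (1 * kl 1 x + t * kp x)) + t * kp x := by ring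
  rw [h3]
  refine (abs_add_le _ _).trans ?_
  have h4 : |t * kp x| ≤ |t| * 2 := by
    rw [abs_mul]; exact mul_le_mul_of_nonneg_left h2 (abs_nonneg _)
  have h5 : t ^ 2 ≤ |t| := by
    rw [← sq_abs]
    nlinarith [abs_nonneg t]
  have h6 : (K + 2 * K ^ 2) * t ^ 2 ≤ (K + 2 * K ^ 2) * |t| :=
    mul_le_mul_of_nonneg_left h5 (by positivity)
  linarith

/-- The derivative of the solution with respect to the parameter. -/
theorem deriv_thm {V : Set E3} {L : ℝ} (h : Dom V L) {u : ℝ → E3 → ℝ}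
    (hu : ∀ lam, 0 < lam → Bd (u lam))
    (hfix : ∀ lam, 0 < lam → ∀ r, u lam r = Gb V r + Av V (kl lam) (u lam) r)
    {n : E3 → ℝ} (hn : Bd n) (hnf : ∀ r, n r = Av V kp (u 1) r + Av V (kl 1) n r)
    (r : E3) (w : S2) :
    HasDerivAt (fun lam => (1 - Real.exp (-Dm V r w)) + J V (kl lam) (u lam) r w)
      (J V kp (u 1) r w + J V (kl 1) n r w) 1 := by
  have hu1 := hu 1 one_pos
  obtain ⟨U, hU0, hU⟩ := hu1.exists_nonneg
  obtain ⟨N, hN0, hN⟩ := hn.exists_nonneg
  set K : ℝ := 2 * L with hKdef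
  have hK : 0 < K := by have := h.pos; linarith
  set B : ℝ := K + 2 * K ^ 2 with hB
  set A : ℝ := 2 + B with hA
  have hB0 : 0 ≤ B := by positivity
  have hA0 : 0 ≤ A := by positivity
  set c : ℝ := U * (B * K) + N * (A * K) with hc
  have hc0 : 0 ≤ c := by positivity
  set q : ℝ := 1 - Real.exp (-2 * K) with hq
  have hq0 : 0 ≤ q := q_nonneg h.pos (by norm_num)
  have hq1 : q < 1 := q_lt
  -- main estimate
  have main : ∀ lam : ℝ, |lam - 1| ≤ 1 / (K + 1) → 0 < lam → 
      |((1 - Real.exp (-Dm V r w)) + J V (kl lam) (u lam) r w)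
        - ((1 - Real.exp (-Dm V r w)) + J V (kl 1) (u 1) r w)
        - (lam - 1) * (J V kp (u 1) r w + J V (kl 1) n r w)| ≤
      (c / (1 - q) + c) * (lam - 1) ^ 2 := by
    intro lam hlam hlam0
    obtain ⟨t, rfl⟩ : ∃ t, lam = 1 + t := ⟨lam - 1, by ring⟩
    have ht : |t| ≤ 1 / (K + 1) := by simpa using hlam
    have ht1 : |t| ≤ 1 := ht.trans (by rw [div_le_one (by linarith)]; linarith)
    have hl2 : 1 + t ≤ 2 := by linarith [le_abs_self t]
    have hul := hu (1 + t) hlam0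
    set R : E3 → ℝ := fun r => 1 * u (1 + t) r + (-1) * (1 * u 1 r + t * n r) with hR
    have hg : Bd (fun r => 1 * u 1 r + t * n r) := hu1.comb hn 1 t
    have hRb : Bd R := hul.comb hg 1 (-1)
    set k2 : ℝ → ℝ := fun x => 1 * kl (1 + t) x + (-1) * (1 * kl 1 x + t * kp x) with hk2
    set k1 : ℝ → ℝ := fun x => 1 * kl (1 + t) x + (-1) * kl 1 x with hk1
    have hlc := kl_cont (1 + t)
    have h1c := kl_cont 1
    have hpc := kp_cont
    have hipc : Continuous (fun x => 1 * kl 1 x + t * kp x) := by fun_prop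
    have hk2c : Continuous k2 := by
      show Continuous (fun x => 1 * kl (1 + t) x + (-1) * (1 * kl 1 x + t * kp x))
      fun_prop
    have hk1c : Continuous k1 := by
      show Continuous (fun x => 1 * kl (1 + t) x + (-1) * kl 1 x)
      fun_prop
    have e1 : ∀ r w, |J V k2 (u 1) r w| ≤ U * (B * t ^ 2 * K) := fun r w =>
      J_const_bound h hk2c (fun x hx => kernel2 hK ht hx) hu1 hU r w
    have e2 : ∀ r w, |J V k1 n r w| ≤ N * (A * |t| * K) := fun r w =>
      J_const_bound h hk1c (fun x hx => kernel1 hK ht hx) hn hN r w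
    have e3 : ∀ r w, |J V k2 (u 1) r w| + |t| * |J V k1 n r w| ≤ c * t ^ 2 := fun r w => by
      have h3 : |t| * |J V k1 n r w| ≤ |t| * (N * (A * |t| * K)) :=
        mul_le_mul_of_nonneg_left (e2 r w) (abs_nonneg _)
      have h4 : |t| * (N * (A * |t| * K)) = N * (A * K) * t ^ 2 := by
        rw [← sq_abs]; ring
      have := e1 r w
      rw [hc]; nlinarith
    have JR : ∀ r w, J V (kl (1 + t)) R r w = 1 * J V (kl (1 + t)) (u (1 + t)) r w
        + (-1) * (1 * J V (kl (1 + t)) (u 1) r w + t * J V (kl (1 + t)) n r w) := fun r w => by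
      rw [hR, J_comb_f hlc hul hg, J_comb_f hlc hu1 hn]
    have AR : ∀ r, Av V (kl (1 + t)) R r = 1 * Av V (kl (1 + t)) (u (1 + t)) r
        + (-1) * (1 * Av V (kl (1 + t)) (u 1) r + t * Av V (kl (1 + t)) n r) := fun r => by
      rw [hR, Av_comb_f h hlc hul hg, Av_comb_f h hlc hu1 hn]
    have J2 : ∀ r w, J V k2 (u 1) r w = 1 * J V (kl (1 + t)) (u 1) r w
        + (-1) * (1 * J V (kl 1) (u 1) r w + t * J V kp (u 1) r w) := fun r w => by
      rw [hk2, J_comb_k hlc hipc hu1, J_comb_k h1c hpc hu1]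
    have A2 : ∀ r, Av V k2 (u 1) r = 1 * Av V (kl (1 + t)) (u 1) r
        + (-1) * (1 * Av V (kl 1) (u 1) r + t * Av V kp (u 1) r) := fun r => by
      rw [hk2, Av_comb_k h hlc hipc hu1, Av_comb_k h h1c hpc hu1]
    have J1 : ∀ r w, J V k1 n r w = 1 * J V (kl (1 + t)) n r w + (-1) * J V (kl 1) n r w :=
      fun r w => by rw [hk1, J_comb_k hlc h1c hn]
    have A1 : ∀ r, Av V k1 n r = 1 * Av V (kl (1 + t)) n r + (-1) * Av V (kl 1) n r :=
      fun r => by rw [hk1, Av_comb_k h hlc h1c hn]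
    have Req : ∀ r, R r = Av V (kl (1 + t)) R r + (Av V k2 (u 1) r + t * Av V k1 n r) := by
      intro r
      rw [AR, A2, A1]
      show 1 * u (1 + t) r + (-1) * (1 * u 1 r + t * n r) = _
      nth_rewrite 1 [hfix (1 + t) hlam0 r]
      nth_rewrite 1 [hfix 1 one_pos r]
      nth_rewrite 1 [hnf r]
      ring
    have err : ∀ r, |Av V k2 (u 1) r + t * Av V k1 n r| ≤ c * t ^ 2 := by
      intro r
      have h1 : Av V k2 (u 1) r + t * Av V k1 n r
          = ∫ w, (J V k2 (u 1) r w + t * J V k1 n r w) ∂nu := by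
        rw [integral_add (J_int h hk2c hu1 r) ((J_int h hk1c hn r).const_mul t),
          integral_const_mul]
        rfl
      rw [h1]
      refine abs_integral_le_integral_abs.trans ?_
      have h2 : ∫ w, |J V k2 (u 1) r w + t * J V k1 n r w| ∂nu ≤ ∫ _w : S2, c * t ^ 2 ∂nu := by
        apply integral_mono
          ((J_int h hk2c hu1 r).add ((J_int h hk1c hn r).const_mul t)).abs (integrable_const _)
        intro w
        show |J V k2 (u 1) r w + t * J V k1 n r w| ≤ c * t ^ 2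
        refine (abs_add_le _ _).trans ?_
        rw [abs_mul]
        exact e3 r w
      simpa using h2
    have Rb : ∀ r, |R r| ≤ c * t ^ 2 / (1 - q) := by
      obtain ⟨C0, hC0⟩ := hRb.2
      apply sup_lemma (f := fun r => |R r|) ⟨C0, hC0⟩ (by positivity) hq0 hq1
      intro C _ hC r
      show |R r| ≤ _
      rw [Req r]
      refine (abs_add_le _ _).trans ?_
      have h1 : |Av V (kl (1 + t)) R r| ≤ q * C :=
        Av_le_const h hlc hRb fun w => Av_kl_contr h hlam0 hl2 hRb hC r w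
      linarith [err r]
    have final : ((1 - Real.exp (-Dm V r w)) + J V (kl (1 + t)) (u (1 + t)) r w)
        - ((1 - Real.exp (-Dm V r w)) + J V (kl 1) (u 1) r w)
        - (1 + t - 1) * (J V kp (u 1) r w + J V (kl 1) n r w)
        = J V (kl (1 + t)) R r w + (J V k2 (u 1) r w + t * J V k1 n r w) := by
      rw [JR, J2, J1]; ring
    rw [final]
    have h1 : |J V (kl (1 + t)) R r w| ≤ c * t ^ 2 / (1 - q) := by
      have := Av_kl_contr h hlam0 hl2 hRb Rb r w
      refine this.trans ?_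
      have h0 : 0 ≤ c * t ^ 2 / (1 - q) := div_nonneg (by positivity) (by linarith)
      calc _ ≤ 1 * (c * t ^ 2 / (1 - q)) := mul_le_mul_of_nonneg_right hq1.le h0
        _ = _ := one_mul _
    have h2 : |J V k2 (u 1) r w + t * J V k1 n r w| ≤ c * t ^ 2 := by
      refine (abs_add_le _ _).trans ?_
      rw [abs_mul]
      exact e3 r w
    refine (abs_add_le _ _).trans ?_
    calc _ ≤ c * t ^ 2 / (1 - q) + c * t ^ 2 := add_le_add h1 h2
      _ = _ := by ring
  rw [hasDerivAt_iff_isLittleO]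
  have hO : (fun lam : ℝ => ((1 - Real.exp (-Dm V r w)) + J V (kl lam) (u lam) r w)
        - ((1 - Real.exp (-Dm V r w)) + J V (kl 1) (u 1) r w)
        - (lam - 1) • (J V kp (u 1) r w + J V (kl 1) n r w)) =O[𝓝 1]
      (fun lam : ℝ => ‖lam - 1‖ ^ 2) := by
    apply Asymptotics.IsBigO.of_bound (c / (1 - q) + c)
    have hev : ∀ᶠ lam : ℝ in 𝓝 1, dist lam 1 < 1 / (K + 1) :=
      Metric.ball_mem_nhds _ (by positivity)
    filter_upwards [hev, eventually_gt_nhds (show (0 : ℝ) < 1 by norm_num)] with lam h1 h2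
    rw [Real.dist_eq] at h1
    have := main lam h1.le h2
    rw [Real.norm_eq_abs, smul_eq_mul, norm_pow, norm_norm, Real.norm_eq_abs, sq_abs]
    exact this
  exact hO.trans_isLittleO (Asymptotics.isLittleO_pow_sub_sub 1 one_lt_two)

end Pool.Agent.V1282.TR
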