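import Pool.Agent.V1282.TR.Deriv

/-!
# The unit ball with a thin flat disc, and the estimates
-/

open MeasureTheory Set Metric Filter Topology

noncomputable section

namespace Pool.Agent.V1282.TR

/-- The unit ball together with the thin disc `‖x‖ < L`, `|x₁| < δ`. -/
def Vd (δ L : ℝ) : Set E3 := {x | ‖x‖ < L ∧ (‖x‖ < 1 ∨ |x 1| < δ)}

lemma Vd_dom {δ L : ℝ} (hL : 0 < L) : Dom (Vd δ L) L := by
  refine ⟨?_, hL, fun x hx => hx.1⟩
  have h1 : IsOpen {x : E3 | ‖x‖ < L} := isOpen_lt continuous_norm continuous_const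
  have h2 : IsOpen {x : E3 | ‖x‖ < 1} := isOpen_lt continuous_norm continuous_const
  have h3 : IsOpen {x : E3 | |x 1| < δ} := by
    have hc : Continuous (fun x : E3 => |x 1|) := by fun_prop
    exact isOpen_lt hc continuous_const
  exact h1.inter (h2.union h3)

lemma coord_add (r w : E3) (s : ℝ) : (r + s • w) 1 = r 1 + s * w 1 := by simp

lemma not_both_ball {r : E3} {w : S2} {s t : ℝ} (hst : s + 2 ≤ t)
    (h1 : ‖r + s • (w : E3)‖ < 1) (h2 : ‖r + t • (w : E3)‖ < 1) : False := by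
  have h3 : ‖(t - s) • (w : E3)‖ ≤ ‖r + t • (w : E3)‖ + ‖r + s • (w : E3)‖ := by
    have := norm_sub_le (r + t • (w : E3)) (r + s • (w : E3))
    rwa [show r + t • (w : E3) - (r + s • (w : E3)) = (t - s) • (w : E3) by
      rw [sub_smul]; abel] at this
  rw [norm_smul, norm_dir, Real.norm_of_nonneg (by linarith)] at h3
  linarith

lemma both_slab {r : E3} {w : S2} {s t δ : ℝ} (hst : 3 / 10 ≤ |t - s|)
    (h1 : |(r + s • (w : E3)) 1| < δ) (h2 : |(r + t • (w : E3)) 1| < δ) :
    |(w : E3) 1| < 7 * δ := by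
  have hδ : 0 < δ := (abs_nonneg _).trans_lt h1
  have h3 : |(t - s) * (w : E3) 1| < 2 * δ := by
    have : (t - s) * (w : E3) 1 = (r + t • (w : E3)) 1 - (r + s • (w : E3)) 1 := by
      rw [coord_add, coord_add]; ring
    rw [this]
    calc _ ≤ |(r + t • (w : E3)) 1| + |(r + s • (w : E3)) 1| := abs_sub _ _
      _ < _ := by linarith
  rw [abs_mul] at h3
  have h4 : 3 / 10 * |(w : E3) 1| ≤ |t - s| * |(w : E3) 1| :=
    mul_le_mul_of_nonneg_right hst (abs_nonneg _)
  linarith

lemma exit_le_three {δ L : ℝ} (hL : 0 < L) {r : E3} {w : S2}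
    (hw : 7 * δ ≤ |(w : E3) 1|) : Dm (Vd δ L) r w ≤ 3 := by
  by_cases hr : r ∈ Vd δ L
  · rw [Dm, if_pos hr]
    by_contra hc
    push Not at hc
    have hmem := (lt_exit_iff (Vd_dom hL).op hL (Vd_dom hL).bd hr w
      (show (0 : ℝ) ≤ 3 by norm_num)).1 hc
    have m1 := (hmem (1 / 10) (by norm_num)).2
    have m2 := (hmem (4 / 10) (by norm_num)).2
    have m3 := (hmem (22 / 10) (by norm_num)).2
    have m4 := (hmem (25 / 10) (by norm_num)).2
    rcases m1 with m1 | m1
    · rcases m3 with m3 | m3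
      · exact not_both_ball (by norm_num) m1 m3
      · rcases m2 with m2 | m2
        · rcases m4 with m4 | m4
          · exact not_both_ball (by norm_num) m2 m4
          · exact absurd (both_slab (by norm_num [abs_of_pos]) m3 m4) (by linarith)
        · exact absurd (both_slab (by rw [abs_of_pos] <;> norm_num) m2 m3) (by linarith)
    · rcases m2 with m2 | m2
      · rcases m4 with m4 | m4
        · exact not_both_ball (by norm_num) m2 m4
        · exact absurd (both_slab (by rw [abs_of_pos] <;> norm_num) m1 m4) (by linarith)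
      · exact absurd (both_slab (by rw [abs_of_pos] <;> norm_num) m1 m2) (by linarith)
  · rw [Dm, if_neg hr]; norm_num

lemma exit_le_sigma {δ L η : ℝ} (hL : 0 < L) (hδ : 0 < δ) (hη : 0 < η) {r : E3} {w : S2}
    (hr1 : r 1 = 0) (hr : 1 + δ / η ≤ ‖r‖) (hw : η ≤ |(w : E3) 1|) :
    Dm (Vd δ L) r w ≤ δ / η := by
  have hσ : 0 < δ / η := by positivity
  by_cases hrV : r ∈ Vd δ L
  · rw [Dm, if_pos hrV]
    by_contra hc
    push Not at hc
    have hmem := ((lt_exit_iff (Vd_dom hL).op hL (Vd_dom hL).bd hrV w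
      hσ.le).1 hc (δ / η) ⟨hσ.le, le_rfl⟩).2
    rcases hmem with h | h
    · have : ‖r‖ ≤ ‖r + (δ / η) • (w : E3)‖ + ‖(δ / η) • (w : E3)‖ := by
        have := norm_sub_le (r + (δ / η) • (w : E3)) ((δ / η) • (w : E3))
        simpa using this
      rw [norm_smul, norm_dir, Real.norm_of_nonneg hσ.le] at this
      linarith
    · rw [coord_add, hr1, zero_add, abs_mul, abs_of_pos hσ] at h
      have h2 : δ / η * η ≤ δ / η * |(w : E3) 1| := mul_le_mul_of_nonneg_left hw hσ.le
      rw [div_mul_cancel₀ _ hη.ne'] at h2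
      linarith
  · rw [Dm, if_neg hrV]; exact hσ.le

lemma half_le_exit {δ L : ℝ} (hL : 1 ≤ L) {r : E3} (hr : ‖r‖ ≤ 1 / 2) (w : S2) :
    1 / 2 ≤ Dm (Vd δ L) r w := by
  have hrV : r ∈ Vd δ L := ⟨by linarith, Or.inl (by linarith)⟩
  rw [Dm, if_pos hrV]
  apply le_of_forall_lt
  intro t ht
  rcases lt_or_ge t 0 with h0 | h0
  · exact h0.trans_le (exit_nonneg _ _ _)
  · rw [lt_exit_iff (Vd_dom (by linarith)).op (by linarith) (Vd_dom (by linarith)).bd hrV w h0]
    intro s hs
    have h1 : ‖r + s • (w : E3)‖ ≤ 1 / 2 + t := by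
      refine (norm_add_le _ _).trans ?_
      rw [norm_smul, norm_dir, Real.norm_of_nonneg hs.1]
      linarith [hs.2]
    exact ⟨by linarith, Or.inl (by linarith)⟩

lemma cap_meas (η : ℝ) : MeasurableSet {w : S2 | |(w : E3) 1| < η} := by
  apply IsOpen.measurableSet
  have hc : Continuous (fun w : S2 => |(w : E3) 1|) := by fun_prop
  exact isOpen_lt hc continuous_const

lemma Gb_le {V : Set E3} {L : ℝ} (h : Dom V L) {r : E3} {b η : ℝ} (hb : 0 ≤ b)
    (hw : ∀ w : S2, η ≤ |(w : E3) 1| → 1 - Real.exp (-Dm V r w) ≤ b) :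
    Gb V r ≤ b + nu.real {w : S2 | |(w : E3) 1| < η} := by
  set A : Set S2 := {w : S2 | |(w : E3) 1| < η} with hA
  have h1 : ∫ w, (b + A.indicator (fun _ => (1 : ℝ)) w) ∂nu = b + nu.real A := by
    rw [integral_add (integrable_const _)
      ((integrable_const (1 : ℝ)).indicator (cap_meas η)), integral_indicator (cap_meas η)]
    simp
    rfl
  rw [← h1]
  apply integral_mono (G_int h r)
    ((integrable_const _).add ((integrable_const (1 : ℝ)).indicator (cap_meas η)))
  intro w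
  show 1 - Real.exp (-Dm V r w) ≤ b + A.indicator (fun _ => (1 : ℝ)) w
  by_cases hwA : w ∈ A
  · rw [indicator_of_mem hwA]
    linarith [Real.exp_pos (-Dm V r w)]
  · rw [indicator_of_notMem hwA, add_zero]
    exact hw w (not_lt.1 hwA)

lemma Gb_ge {V : Set E3} {L : ℝ} (h : Dom V L) {r : E3} {b : ℝ}
    (hw : ∀ w : S2, b ≤ Dm V r w) : 1 - Real.exp (-b) ≤ Gb V r := by
  have h1 : ∫ _w : S2, (1 - Real.exp (-b)) ∂nu = 1 - Real.exp (-b) := by simp
  rw [← h1]
  apply integral_mono (integrable_const _) (G_int h r)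
  intro w
  show 1 - Real.exp (-b) ≤ 1 - Real.exp (-Dm V r w)
  have : Real.exp (-Dm V r w) ≤ Real.exp (-b) := Real.exp_le_exp.2 (by linarith [hw w])
  linarith

/-- One-sided bound for the averaging operator. -/
lemma Av_lower {V : Set E3} {L : ℝ} (h : Dom V L) {f : E3 → ℝ} (hf : Bd f) {C : ℝ}
    (hC : ∀ x, -C ≤ f x) (r : E3) : -(C * Gb V r) ≤ Av V (kl 1) f r := by
  have h1 : ∀ w, -(C * (1 - Real.exp (-Dm V r w))) ≤ J V (kl 1) f r w := by
    intro w
    have h2 := int_kl 1 (Dm V r w)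
    rw [neg_one_mul] at h2
    rw [← h2, ← neg_mul, ← intervalIntegral.integral_const_mul]
    unfold J
    apply intervalIntegral.integral_mono_on (Dm_nonneg V r w)
      (((kl_cont 1).const_mul _).intervalIntegrable _ _) (ii (kl_cont 1) hf r w _ _)
    intro x _
    have h3 : 0 ≤ kl 1 x := by unfold kl; positivity
    rw [mul_comm]
    exact mul_le_mul_of_nonneg_left (hC _) h3
  have h4 : ∫ w, -(C * (1 - Real.exp (-Dm V r w))) ∂nu = -(C * Gb V r) := by
    rw [integral_neg, integral_const_mul]; rfl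
  rw [← h4]
  exact integral_mono ((G_int h r).const_mul C).neg (J_int h (kl_cont 1) hf r) h1

/-- Bounds for the solution and its derivative when `Gb ≤ 1 - e`. -/
lemma bounds {V : Set E3} {L : ℝ} (h : Dom V L) {e : ℝ} (he : 0 < e) (he1 : e ≤ 1)
    (hG : ∀ r, Gb V r ≤ 1 - e)
    {u n : E3 → ℝ} (hu : Bd u) (hue : ∀ r, u r = Gb V r + Av V (kl 1) u r)
    (hn : Bd n) (hnf : ∀ r, n r = Av V kp u r + Av V (kl 1) n r) :
    (∀ r, Gb V r ≤ u r) ∧ (∀ r, u r ≤ 1 / e * Gb V r) ∧ (∀ r, |n r| ≤ 4 / e ^ 2) ∧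
      (∀ r, |n r| ≤ 8 / e ^ 2 * Gb V r) := by
  have hG0 := Gb_nonneg V
  -- upper bound for |u|
  obtain ⟨C1, hC1⟩ := hu.2
  have hU : ∀ r, |u r| ≤ (1 - e) / (1 - (1 - e)) := by
    apply sup_lemma (f := fun r => |u r|) ⟨C1, hC1⟩ (by linarith) (by linarith) (by linarith)
    intro C hC0 hC r
    show |u r| ≤ _
    rw [hue r]
    refine (abs_add_le _ _).trans ?_
    rw [abs_of_nonneg (hG0 r)]
    have h1 := Av_kl_one_bound h hu hC r
    have h2 : C * Gb V r ≤ C * (1 - e) := mul_le_mul_of_nonneg_left (hG r) hC0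
    linarith [hG r]
  have hUe : (1 - e) / (1 - (1 - e)) = 1 / e - 1 := by
    rw [show 1 - (1 - e) = e by ring]; field_simp
  rw [hUe] at hU
  set U : ℝ := 1 / e - 1 with hUdef
  have hU0 : 0 ≤ U := (abs_nonneg _).trans (hU 0)
  have hneg : ∀ r, -u r ≤ 0 := by
    have := sup_lemma (f := fun r => -u r) ⟨C1, fun r => (neg_le_abs _).trans (hC1 r)⟩ le_rfl
      (q := 1 - e) (by linarith) (by linarith) (by
        intro C hC0 hC r
        show -u r ≤ _
        rw [hue r]
        have h1 := Av_lower h hu (C := C) (fun x => by have := hC x; linarith) r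
        have h2 : C * Gb V r ≤ C * (1 - e) := mul_le_mul_of_nonneg_left (hG r) hC0
        have h3 := hG0 r
        linarith)
    intro r
    have := this r
    rwa [zero_div] at this
  have hlow : ∀ r, Gb V r ≤ u r := by
    intro r
    have h1 := Av_lower h hu (C := 0) (fun x => by have := hneg x; linarith) r
    rw [hue r]; linarith
  have hup : ∀ r, u r ≤ 1 / e * Gb V r := by
    intro r
    have h1 := (le_abs_self _).trans (Av_kl_one_bound h hu hU r)
    rw [hue r]
    have : 1 / e * Gb V r = Gb V r + U * Gb V r := by rw [hUdef]; ring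
    linarith
  obtain ⟨C2, hC2⟩ := hn.2
  have hN : ∀ r, |n r| ≤ (4 * U * (1 - e)) / (1 - (1 - e)) := by
    apply sup_lemma (f := fun r => |n r|) ⟨C2, hC2⟩
      (mul_nonneg (by positivity) (by linarith)) (by linarith) (by linarith)
    intro C hC0 hC r
    show |n r| ≤ _
    rw [hnf r]
    refine (abs_add_le _ _).trans ?_
    have h1 := Av_kl_one_bound h hn hC r
    have h0 := Av_kp_bound h hu hU r
    have h2 : C * Gb V r ≤ C * (1 - e) := mul_le_mul_of_nonneg_left (hG r) hC0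
    have h3 : 4 * U * Gb V r ≤ 4 * U * (1 - e) :=
      mul_le_mul_of_nonneg_left (hG r) (by positivity)
    linarith
  have hN1 : (4 * U * (1 - e)) / (1 - (1 - e)) ≤ 4 / e ^ 2 := by
    rw [show 1 - (1 - e) = e by ring, div_le_div_iff₀ he (by positivity), hUdef]
    have : 4 * (1 / e - 1) * (1 - e) * e ^ 2 = 4 * (1 - e) ^ 2 * e := by
      field_simp
    rw [this]
    nlinarith
  have hN' : ∀ r, |n r| ≤ 4 / e ^ 2 := fun r => (hN r).trans hN1
  refine ⟨hlow, hup, hN', ?_⟩
  intro r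
  have h1 := Av_kl_one_bound h hn hN' r
  have h0 := Av_kp_bound h hu hU r
  have h2 : 4 * U ≤ 4 / e ^ 2 := by
    rw [hUdef, le_div_iff₀ (by positivity)]
    have : 4 * (1 / e - 1) * e ^ 2 = 4 * e - 4 * e ^ 2 := by field_simp
    rw [this]; nlinarith
  have h3 : 4 * U * Gb V r ≤ 4 / e ^ 2 * Gb V r := mul_le_mul_of_nonneg_right h2 (hG0 r)
  have h4 : 8 / e ^ 2 * Gb V r = 4 / e ^ 2 * Gb V r + 4 / e ^ 2 * Gb V r := by ring
  rw [hnf r, h4]
  exact (abs_add_le _ _).trans (by linarith)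

end Pool.Agent.V1282.TR
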