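import Pool.Agent.V1282.TR.Basic

/-!
# The integral operators of the transport equation
-/

open MeasureTheory Set Metric

noncomputable section

namespace Pool.Agent.V1282.TR

/-- Bounded measurable functions on three-space. -/
def Bd (f : E3 → ℝ) : Prop := Measurable f ∧ ∃ C, ∀ x, |f x| ≤ C

/-- Integral of `k(x) f(r + x w)` along the ray from `r` in direction `w` until first exit. -/
def J (V : Set E3) (k : ℝ → ℝ) (f : E3 → ℝ) (r : E3) (w : S2) : ℝ :=
  ∫ x in (0 : ℝ)..Dm V r w, k x * f (r + x • (w : E3))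

/-- Average of `J` over directions. -/
def Av (V : Set E3) (k : ℝ → ℝ) (f : E3 → ℝ) (r : E3) : ℝ := ∫ w, J V k f r w ∂nu

/-- Open sets contained in the ball of radius `L`. -/
structure Dom (V : Set E3) (L : ℝ) : Prop where
  op : IsOpen V
  pos : 0 < L
  bd : ∀ x ∈ V, ‖x‖ < L

lemma Bd.exists_nonneg {f : E3 → ℝ} (hf : Bd f) : ∃ C, 0 ≤ C ∧ ∀ x, |f x| ≤ C := by
  obtain ⟨C, hC⟩ := hf.2
  exact ⟨C, (abs_nonneg _).trans (hC 0), hC⟩

lemma Bd.comb {f g : E3 → ℝ} (hf : Bd f) (hg : Bd g) (a b : ℝ) :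
    Bd (fun r => a * f r + b * g r) := by
  obtain ⟨C, hC⟩ := hf.2
  obtain ⟨D, hD⟩ := hg.2
  refine ⟨(hf.1.const_mul a).add (hg.1.const_mul b), |a| * C + |b| * D, fun x => ?_⟩
  calc |a * f x + b * g x| ≤ |a * f x| + |b * g x| := abs_add_le _ _
    _ = |a| * |f x| + |b| * |g x| := by rw [abs_mul, abs_mul]
    _ ≤ _ := add_le_add (mul_le_mul_of_nonneg_left (hC x) (abs_nonneg _))
        (mul_le_mul_of_nonneg_left (hD x) (abs_nonneg _))

lemma ii {k : ℝ → ℝ} (hk : Continuous k) {f : E3 → ℝ} (hf : Bd f) (r : E3) (w : E3) (a b : ℝ) :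
    IntervalIntegrable (fun x => k x * f (r + x • w)) volume a b := by
  obtain ⟨C, hC⟩ := hf.2
  have hc : Continuous (fun x => |k x| * C) := by fun_prop
  have h1 : IntervalIntegrable (fun x => |k x| * C) volume a b := hc.intervalIntegrable _ _
  refine h1.mono_fun' ?_ ?_
  · have h2 : Measurable (fun x : ℝ => r + x • w) := by fun_prop
    exact (hk.measurable.mul (hf.1.comp h2)).aestronglyMeasurable
  · refine ae_of_all _ fun x => ?_
    show ‖k x * f (r + x • w)‖ ≤ |k x| * C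
    rw [norm_mul, Real.norm_eq_abs, Real.norm_eq_abs]
    exact mul_le_mul_of_nonneg_left (hC _) (abs_nonneg _)

lemma J_comb_f {V : Set E3} {k : ℝ → ℝ} (hk : Continuous k) {f g : E3 → ℝ} (hf : Bd f)
    (hg : Bd g) (a b : ℝ) (r : E3) (w : S2) :
    J V k (fun r => a * f r + b * g r) r w = a * J V k f r w + b * J V k g r w := by
  unfold J
  rw [← intervalIntegral.integral_const_mul, ← intervalIntegral.integral_const_mul,
    ← intervalIntegral.integral_add ((ii hk hf r w _ _).const_mul a)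
      ((ii hk hg r w _ _).const_mul b)]
  congr 1; ext x; ring

lemma J_comb_k {V : Set E3} {k l : ℝ → ℝ} (hk : Continuous k) (hl : Continuous l) {f : E3 → ℝ}
    (hf : Bd f) (a b : ℝ) (r : E3) (w : S2) :
    J V (fun x => a * k x + b * l x) f r w = a * J V k f r w + b * J V l f r w := by
  unfold J
  rw [← intervalIntegral.integral_const_mul, ← intervalIntegral.integral_const_mul,
    ← intervalIntegral.integral_add ((ii hk hf r w _ _).const_mul a)
      ((ii hl hf r w _ _).const_mul b)]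
  congr 1; ext x; ring

lemma J_meas {V : Set E3} {L : ℝ} (h : Dom V L) {k : ℝ → ℝ} (hk : Continuous k) {f : E3 → ℝ}
    (hf : Bd f) : Measurable (fun p : E3 × S2 => J V k f p.1 p.2) := by
  have hD := Dm_meas h.op h.pos h.bd
  set s : Set ((E3 × S2) × ℝ) := {q | 0 < q.2 ∧ q.2 ≤ Dm V q.1.1 q.1.2} with hs
  have hsm : MeasurableSet s :=
    (measurableSet_lt measurable_const measurable_snd).inter
      (measurableSet_le measurable_snd (hD.comp measurable_fst))
  set F : (E3 × S2) × ℝ → ℝ :=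
    s.indicator (fun q => k q.2 * f (q.1.1 + q.2 • (q.1.2 : E3))) with hF
  have hFm : Measurable F := by
    apply Measurable.indicator _ hsm
    have h2 : Measurable (fun q : (E3 × S2) × ℝ => q.1.1 + q.2 • (q.1.2 : E3)) := by fun_prop
    exact (hk.measurable.comp measurable_snd).mul (hf.1.comp h2)
  have heq : (fun p : E3 × S2 => J V k f p.1 p.2) = fun p => ∫ x, F (p, x) := by
    ext p
    rw [J, intervalIntegral.integral_of_le (Dm_nonneg V p.1 p.2),
      ← integral_indicator measurableSet_Ioc]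
    congr 1
  rw [heq]
  exact (hFm.stronglyMeasurable.integral_prod_right').measurable

lemma J_meas_w {V : Set E3} {L : ℝ} (h : Dom V L) {k : ℝ → ℝ} (hk : Continuous k) {f : E3 → ℝ}
    (hf : Bd f) (r : E3) : Measurable (fun w : S2 => J V k f r w) :=
  (J_meas h hk hf).comp measurable_prodMk_left

lemma J_bound {V : Set E3} {L : ℝ} (h : Dom V L) {k m : ℝ → ℝ} (hk : Continuous k)
    (hm : Continuous m) (hkm : ∀ x ∈ Icc 0 (2 * L), |k x| ≤ m x) {f : E3 → ℝ} (hf : Bd f)
    {C : ℝ} (hC : ∀ x, |f x| ≤ C) (r : E3) (w : S2) :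
    |J V k f r w| ≤ C * ∫ x in (0 : ℝ)..Dm V r w, m x := by
  have hD := Dm_nonneg V r w
  have hD2 := Dm_le h.pos h.bd r w
  unfold J
  refine (intervalIntegral.abs_integral_le_integral_abs hD).trans ?_
  rw [← intervalIntegral.integral_const_mul]
  apply intervalIntegral.integral_mono_on hD (ii hk hf r w _ _).abs
  · exact (continuous_const.mul hm).intervalIntegrable _ _
  · intro x hx
    rw [abs_mul, mul_comm C]
    exact mul_le_mul (hkm x ⟨hx.1, hx.2.trans hD2⟩) (hC _) (abs_nonneg _)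
      ((abs_nonneg _).trans (hkm x ⟨hx.1, hx.2.trans hD2⟩))

lemma J_int {V : Set E3} {L : ℝ} (h : Dom V L) {k : ℝ → ℝ} (hk : Continuous k) {f : E3 → ℝ}
    (hf : Bd f) (r : E3) : Integrable (fun w : S2 => J V k f r w) nu := by
  obtain ⟨C, hC0, hC⟩ := hf.exists_nonneg
  have hka : Continuous (fun x => |k x|) := by fun_prop
  refine Integrable.of_bound (J_meas_w h hk hf r).aestronglyMeasurable
    (C * ∫ x in (0 : ℝ)..(2 * L), |k x|) (ae_of_all _ fun w => ?_)
  rw [Real.norm_eq_abs]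
  refine (J_bound h hk hka (fun x _ => le_rfl) hf hC r w).trans ?_
  apply mul_le_mul_of_nonneg_left _ hC0
  apply intervalIntegral.integral_mono_interval le_rfl (Dm_nonneg V r w) (Dm_le h.pos h.bd r w)
  · exact ae_of_all _ fun x => abs_nonneg _
  · exact hka.intervalIntegrable _ _

lemma Av_comb_f {V : Set E3} {L : ℝ} (h : Dom V L) {k : ℝ → ℝ} (hk : Continuous k)
    {f g : E3 → ℝ} (hf : Bd f) (hg : Bd g) (a b : ℝ) (r : E3) :
    Av V k (fun r => a * f r + b * g r) r = a * Av V k f r + b * Av V k g r := by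
  unfold Av
  rw [← integral_const_mul, ← integral_const_mul,
    ← integral_add ((J_int h hk hf r).const_mul a) ((J_int h hk hg r).const_mul b)]
  congr 1; ext w; exact J_comb_f hk hf hg a b r w

lemma Av_comb_k {V : Set E3} {L : ℝ} (h : Dom V L) {k l : ℝ → ℝ} (hk : Continuous k)
    (hl : Continuous l) {f : E3 → ℝ} (hf : Bd f) (a b : ℝ) (r : E3) :
    Av V (fun x => a * k x + b * l x) f r = a * Av V k f r + b * Av V l f r := by
  unfold Av
  rw [← integral_const_mul, ← integral_const_mul,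
    ← integral_add ((J_int h hk hf r).const_mul a) ((J_int h hl hf r).const_mul b)]
  congr 1; ext w; exact J_comb_k hk hl hf a b r w

lemma Av_meas {V : Set E3} {L : ℝ} (h : Dom V L) {k : ℝ → ℝ} (hk : Continuous k) {f : E3 → ℝ}
    (hf : Bd f) : Measurable (fun r => Av V k f r) :=
  ((J_meas h hk hf).stronglyMeasurable.integral_prod_right').measurable

lemma Av_le_of {V : Set E3} {L : ℝ} (h : Dom V L) {k : ℝ → ℝ} (hk : Continuous k) {f : E3 → ℝ}
    (hf : Bd f) {r : E3} {B : S2 → ℝ} (hB : Integrable B nu) (hJ : ∀ w, |J V k f r w| ≤ B w) :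
    |Av V k f r| ≤ ∫ w, B w ∂nu := by
  unfold Av
  refine (abs_integral_le_integral_abs).trans ?_
  exact integral_mono (J_int h hk hf r).abs hB hJ

lemma Av_le_const {V : Set E3} {L : ℝ} (h : Dom V L) {k : ℝ → ℝ} (hk : Continuous k)
    {f : E3 → ℝ} (hf : Bd f) {r : E3} {B : ℝ} (hJ : ∀ w, |J V k f r w| ≤ B) :
    |Av V k f r| ≤ B := by
  have := Av_le_of h hk hf (integrable_const B) hJ
  simpa using this

lemma Av_Bd {V : Set E3} {L : ℝ} (h : Dom V L) {k : ℝ → ℝ} (hk : Continuous k) {f : E3 → ℝ}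
    (hf : Bd f) : Bd (fun r => Av V k f r) := by
  refine ⟨Av_meas h hk hf, ?_⟩
  obtain ⟨C, hC0, hC⟩ := hf.exists_nonneg
  have hka : Continuous (fun x => |k x|) := by fun_prop
  refine ⟨C * ∫ x in (0 : ℝ)..(2 * L), |k x|, fun r => Av_le_const h hk hf fun w => ?_⟩
  refine (J_bound h hk hka (fun x _ => le_rfl) hf hC r w).trans ?_
  apply mul_le_mul_of_nonneg_left _ hC0
  apply intervalIntegral.integral_mono_interval le_rfl (Dm_nonneg V r w) (Dm_le h.pos h.bd r w)
  · exact ae_of_all _ fun x => abs_nonneg _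
  · exact hka.intervalIntegrable _ _

/-- Average of `1 - e^{-D}`. -/
def Gb (V : Set E3) (r : E3) : ℝ := ∫ w, (1 - Real.exp (-Dm V r w)) ∂nu

lemma G_int {V : Set E3} {L : ℝ} (h : Dom V L) (r : E3) :
    Integrable (fun w : S2 => 1 - Real.exp (-Dm V r w)) nu := by
  have hD : Measurable (fun w : S2 => Dm V r w) :=
    (Dm_meas h.op h.pos h.bd).comp measurable_prodMk_left
  refine Integrable.of_bound (measurable_const.sub hD.neg.exp).aestronglyMeasurable
    1 (ae_of_all _ fun w => ?_)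
  have h1 := Real.exp_pos (-Dm V r w)
  have h2 : Real.exp (-Dm V r w) ≤ 1 := Real.exp_le_one_iff.2 (by linarith [Dm_nonneg V r w])
  rw [Real.norm_eq_abs, abs_of_nonneg (by linarith)]
  linarith

lemma Gb_nonneg (V : Set E3) (r : E3) : 0 ≤ Gb V r := by
  apply integral_nonneg
  intro w
  have h2 : Real.exp (-Dm V r w) ≤ 1 := Real.exp_le_one_iff.2 (by linarith [Dm_nonneg V r w])
  show (0 : ℝ) ≤ 1 - Real.exp (-Dm V r w)
  linarith

lemma Gb_Bd {V : Set E3} {L : ℝ} (h : Dom V L) : Bd (Gb V) := by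
  have hD := Dm_meas h.op h.pos h.bd
  have hm : Measurable (fun p : E3 × S2 => 1 - Real.exp (-Dm V p.1 p.2)) :=
    measurable_const.sub hD.neg.exp
  refine ⟨(hm.stronglyMeasurable.integral_prod_right').measurable, 1, fun r => ?_⟩
  rw [abs_of_nonneg (Gb_nonneg V r)]
  have : Gb V r ≤ ∫ _w : S2, (1 : ℝ) ∂nu := by
    apply integral_mono (G_int h r) (integrable_const _)
    intro w
    have h1 := Real.exp_pos (-Dm V r w)
    show 1 - Real.exp (-Dm V r w) ≤ (1 : ℝ)
    linarith
  simpa using this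

/-- The kernel `λ e^{-λ x}`. -/
def kl (lam x : ℝ) : ℝ := lam * Real.exp (-lam * x)

/-- The derivative of `kl` in `λ` at `λ = 1`. -/
def kp (x : ℝ) : ℝ := (1 - x) * Real.exp (-x)

lemma kl_cont (lam : ℝ) : Continuous (kl lam) := by unfold kl; fun_prop

lemma kp_cont : Continuous kp := by unfold kp; fun_prop

lemma int_kl (lam d : ℝ) : ∫ x in (0 : ℝ)..d, kl lam x = 1 - Real.exp (-lam * d) := by
  have hd : ∀ x ∈ uIcc 0 d, HasDerivAt (fun x => -Real.exp (-lam * x)) (kl lam x) x := by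
    intro x _
    have h1 : HasDerivAt (fun x : ℝ => -lam * x) (-lam * 1) x := (hasDerivAt_id x).const_mul _
    have h2 := h1.exp.neg
    have h3 : -(Real.exp (-lam * x) * (-lam * 1)) = kl lam x := by unfold kl; ring
    rwa [h3] at h2
  rw [intervalIntegral.integral_eq_sub_of_hasDerivAt hd ((kl_cont lam).intervalIntegrable _ _)]
  simp
  ring

lemma J_kl_bound {V : Set E3} {L : ℝ} (h : Dom V L) {lam : ℝ} (hl : 0 < lam) {f : E3 → ℝ}
    (hf : Bd f) {C : ℝ} (hC : ∀ x, |f x| ≤ C) (r : E3) (w : S2) :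
    |J V (kl lam) f r w| ≤ C * (1 - Real.exp (-lam * Dm V r w)) := by
  rw [← int_kl]
  apply J_bound h (kl_cont _) (kl_cont _) _ hf hC
  intro x _
  unfold kl
  rw [abs_of_nonneg (by positivity)]

lemma Av_kl_one_bound {V : Set E3} {L : ℝ} (h : Dom V L) {f : E3 → ℝ}
    (hf : Bd f) {C : ℝ} (hC : ∀ x, |f x| ≤ C) (r : E3) :
    |Av V (kl 1) f r| ≤ C * Gb V r := by
  have := Av_le_of (r := r) h (kl_cont 1) hf ((G_int h r).const_mul C) (fun w => by
    have := J_kl_bound h one_pos hf hC r w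
    rwa [neg_one_mul] at this)
  rwa [integral_const_mul] at this

lemma kp_bound (x : ℝ) (hx : 0 ≤ x) : |kp x| ≤ 2 * Real.exp (-(1 / 2) * x) := by
  have h1 : Real.exp (-x) = Real.exp (-(1 / 2) * x) * Real.exp (-(x / 2)) := by
    rw [← Real.exp_add]; congr 1; ring
  have h2 : |1 - x| * Real.exp (-(x / 2)) ≤ 2 := by
    have h3 : x / 2 + 1 ≤ Real.exp (x / 2) := Real.add_one_le_exp _
    have h4 : |1 - x| ≤ 2 * Real.exp (x / 2) := by
      rw [abs_le]; constructor <;> nlinarith [Real.exp_pos (x / 2)]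
    calc |1 - x| * Real.exp (-(x / 2)) ≤ 2 * Real.exp (x / 2) * Real.exp (-(x / 2)) :=
          mul_le_mul_of_nonneg_right h4 (Real.exp_pos _).le
      _ = 2 := by rw [mul_assoc, ← Real.exp_add]; simp
  rw [kp, abs_mul, abs_of_pos (Real.exp_pos _), h1]
  calc |1 - x| * (Real.exp (-(1 / 2) * x) * Real.exp (-(x / 2)))
      = |1 - x| * Real.exp (-(x / 2)) * Real.exp (-(1 / 2) * x) := by ring
    _ ≤ _ := mul_le_mul_of_nonneg_right h2 (Real.exp_pos _).le

lemma J_kp_bound {V : Set E3} {L : ℝ} (h : Dom V L) {f : E3 → ℝ}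
    (hf : Bd f) {C : ℝ} (hC : ∀ x, |f x| ≤ C) (r : E3) (w : S2) :
    |J V kp f r w| ≤ 4 * C * (1 - Real.exp (-Dm V r w)) := by
  have hC0 : 0 ≤ C := (abs_nonneg _).trans (hC 0)
  have hm : Continuous (fun x => 4 * kl (1 / 2) x) := continuous_const.mul (kl_cont _)
  have h1 := J_bound h kp_cont hm (fun x hx => by
    have := kp_bound x hx.1
    unfold kl; linarith) hf hC r w
  rw [intervalIntegral.integral_const_mul, int_kl] at h1
  have h2 : Real.exp (-Dm V r w) ≤ Real.exp (-(1 / 2) * Dm V r w) :=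
    Real.exp_le_exp.2 (by linarith [Dm_nonneg V r w])
  refine h1.trans ?_
  have : C * (4 * (1 - Real.exp (-(1 / 2) * Dm V r w))) ≤
      C * (4 * (1 - Real.exp (-Dm V r w))) := by
    apply mul_le_mul_of_nonneg_left _ hC0; linarith
  linarith

lemma Av_kp_bound {V : Set E3} {L : ℝ} (h : Dom V L) {f : E3 → ℝ}
    (hf : Bd f) {C : ℝ} (hC : ∀ x, |f x| ≤ C) (r : E3) :
    |Av V kp f r| ≤ 4 * C * Gb V r := by
  have := Av_le_of (r := r) h kp_cont hf ((G_int h r).const_mul (4 * C))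
    (fun w => J_kp_bound h hf hC r w)
  rwa [integral_const_mul] at this

end Pool.Agent.V1282.TR
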