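import Pool.Agent.V1282.TR.Geom

/-!
# Negativity of the derivative far out in the thin disc
-/

open MeasureTheory Set Metric Filter Topology

noncomputable section

namespace Pool.Agent.V1282.TR

/-- The unit vector along the zeroth axis. -/
def e0 : E3 := EuclideanSpace.single 0 1

lemma norm_e0 : ‖e0‖ = 1 := by simp [e0]

/-- The corresponding direction. -/
def w0 : S2 := ⟨e0, by simp [norm_e0]⟩

lemma e0_one : e0 1 = 0 := by simp [e0]

lemma int_exp (a b : ℝ) : ∫ x in a..b, Real.exp (-x) = Real.exp (-a) - Real.exp (-b) := by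
  have hd : ∀ x ∈ uIcc a b, HasDerivAt (fun x => -Real.exp (-x)) (Real.exp (-x)) x := by
    intro x _
    have h1 : HasDerivAt (fun x : ℝ => -x) (-1) x := (hasDerivAt_id x).neg
    have h2 := h1.exp.neg
    have h3 : -(Real.exp (-x) * -1) = Real.exp (-x) := by ring
    rwa [h3] at h2
  rw [intervalIntegral.integral_eq_sub_of_hasDerivAt hd
    ((by fun_prop : Continuous fun x : ℝ => Real.exp (-x)).intervalIntegrable _ _)]
  ring

lemma piece {κ : ℝ → ℝ} {a b c : ℝ} (hab : a ≤ b)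
    (hκ : IntervalIntegrable κ volume a b) (hb : ∀ x ∈ Icc a b, κ x ≤ c * Real.exp (-x)) :
    ∫ x in a..b, κ x ≤ c * (Real.exp (-a) - Real.exp (-b)) := by
  rw [← int_exp, ← intervalIntegral.integral_const_mul]
  exact intervalIntegral.integral_mono_on hab hκ
    ((by fun_prop : Continuous fun x : ℝ => c * Real.exp (-x)).intervalIntegrable _ _) hb

set_option maxHeartbeats 1000000 in
/-- Existence of a domain of the family where the derivative is negative. -/
theorem exists_neg : ∃ (δ L : ℝ) (P : E3), 0 < L ∧ P ∈ Vd δ L ∧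
    ∀ u n : E3 → ℝ, Bd u → Bd n → (∀ r, u r = Gb (Vd δ L) r + Av (Vd δ L) (kl 1) u r) →
      (∀ r, n r = Av (Vd δ L) kp u r + Av (Vd δ L) (kl 1) n r) →
      J (Vd δ L) kp u P w0 + J (Vd δ L) (kl 1) n P w0 < 0 := by
  set e : ℝ := Real.exp (-3) / 2 with he_def
  have he : 0 < e := by positivity
  have he1 : e ≤ 1 := by
    have : Real.exp (-3) ≤ 1 := Real.exp_le_one_iff.2 (by norm_num)
    rw [he_def]; linarith
  set N0 : ℝ := 4 / e ^ 2 with hN0
  have hN0p : 0 < N0 := by positivity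
  have heN : 1 / e ≤ N0 := by
    rw [hN0, div_le_div_iff₀ he (by positivity)]; nlinarith
  set c0 : ℝ := 1 - Real.exp (-(1 / 2)) with hc0
  have hc0p : 0 < c0 := by
    have : Real.exp (-(1 / 2)) < 1 := Real.exp_lt_one_iff.2 (by norm_num)
    linarith
  set c1 : ℝ := Real.exp (-(1 / 2)) - Real.exp (-(3 / 2)) with hc1
  have hc1p : 0 < c1 := by
    have : Real.exp (-(3 / 2)) < Real.exp (-(1 / 2)) := Real.exp_lt_exp.2 (by norm_num)
    linarith
  -- choice of ell
  obtain ⟨l, hl2, hl⟩ : ∃ l : ℝ, 2 ≤ l ∧ N0 * Real.exp 1 + 1 ≤ (l - 1 / 2) * (c0 * c1) := by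
    refine ⟨max 2 ((N0 * Real.exp 1 + 1) / (c0 * c1) + 1 / 2), le_max_left _ _, ?_⟩
    have h1 : (N0 * Real.exp 1 + 1) / (c0 * c1) ≤
        max 2 ((N0 * Real.exp 1 + 1) / (c0 * c1) + 1 / 2) - 1 / 2 := by
      have := le_max_right 2 ((N0 * Real.exp 1 + 1) / (c0 * c1) + 1 / 2)
      linarith
    rwa [div_le_iff₀ (by positivity)] at h1
  set ε : ℝ := min (1 / 7) (min e (Real.exp (-l) / (16 * N0 * l))) with hε
  have hεp : 0 < ε := by
    have : (0 : ℝ) < l := by linarith
    positivity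
  have hε1 : ε ≤ 1 / 7 := min_le_left _ _
  have hε2 : ε ≤ e := (min_le_right _ _).trans (min_le_left _ _)
  have hε3 : ε ≤ Real.exp (-l) / (16 * N0 * l) := (min_le_right _ _).trans (min_le_right _ _)
  obtain ⟨η, hη0, hη1, hη⟩ := exists_cap hεp
  set δ : ℝ := η * ε with hδ
  have hδp : 0 < δ := by positivity
  have hσ : δ / η = ε := by rw [hδ]; field_simp
  set L : ℝ := l + 2 with hL
  have hLp : 0 < L := by linarith
  have hdom : Dom (Vd δ L) L := Vd_dom hLp
  have hin : ∀ y : ℝ, |y| < L → y • e0 ∈ Vd δ L := by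
    intro y hy
    refine ⟨?_, Or.inr ?_⟩
    · rw [norm_smul, norm_e0, mul_one]; exact hy
    · simp [e0_one, hδp]
  have hGq : ∀ r, Gb (Vd δ L) r ≤ 1 - e := by
    intro r
    have h1 := Gb_le (r := r) hdom (b := 1 - Real.exp (-3)) (η := η) (by
      have : Real.exp (-3) ≤ 1 := Real.exp_le_one_iff.2 (by norm_num)
      linarith) (by
        intro w hw
        have h7 : 7 * δ ≤ |(w : E3) 1| := by
          have : 7 * δ ≤ η := by rw [hδ]; nlinarith
          linarith
        have h3 := exit_le_three (r := r) hLp h7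
        have : Real.exp (-3) ≤ Real.exp (-Dm (Vd δ L) r w) := Real.exp_le_exp.2 (by linarith)
        linarith)
    have h2 : Real.exp (-3) = 2 * e := by rw [he_def]; ring
    linarith
  have hGt : ∀ y : ℝ, 1 + ε ≤ |y| → Gb (Vd δ L) (y • e0) ≤ 2 * ε := by
    intro y hy
    have h1 := Gb_le (r := y • e0) hdom (b := ε) (η := η) hεp.le (by
      intro w hw
      have h3 := exit_le_sigma (r := y • e0) (w := w) hLp hδp hη0 (by simp [e0_one]) (by
        rw [hσ, norm_smul, norm_e0, mul_one]; exact hy) hw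
      rw [hσ] at h3
      have := Real.add_one_le_exp (-Dm (Vd δ L) (y • e0) w)
      linarith)
    linarith
  have hGc : ∀ y : ℝ, |y| ≤ 1 / 2 → c0 ≤ Gb (Vd δ L) (y • e0) := by
    intro y hy
    have h1 : ‖y • e0‖ ≤ 1 / 2 := by rw [norm_smul, norm_e0, mul_one]; exact hy
    exact Gb_ge hdom (b := 1 / 2) fun w => half_le_exit (by linarith) h1 w
  set P : E3 := (-(l + 1)) • e0 with hP
  have hPV : P ∈ Vd δ L := hin _ (by rw [abs_neg, abs_of_pos] <;> linarith)
  refine ⟨δ, L, P, hLp, hPV, ?_⟩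
  intro u n hu hn hue hnf
  obtain ⟨hlow, hup, hnN, hnG⟩ := bounds hdom he he1 hGq hu hue hn hnf
  have hu0 : ∀ r, 0 ≤ u r := fun r => (Gb_nonneg _ r).trans (hlow r)
  have hpath : ∀ x : ℝ, P + x • ((w0 : S2) : E3) = (x - (l + 1)) • e0 := by
    intro x
    show (-(l + 1)) • e0 + x • e0 = _
    rw [← add_smul]; congr 1; ring
  set κ : ℝ → ℝ := fun x => kp x * u (P + x • ((w0 : S2) : E3))
    + kl 1 x * n (P + x • ((w0 : S2) : E3)) with hκ
  have hκi : ∀ a b, IntervalIntegrable κ volume a b := fun a b =>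
    (ii kp_cont hu _ _ a b).add (ii (kl_cont 1) hn _ _ a b)
  have hJ : J (Vd δ L) kp u P w0 + J (Vd δ L) (kl 1) n P w0
      = ∫ x in (0 : ℝ)..Dm (Vd δ L) P w0, κ x := by
    unfold J
    rw [← intervalIntegral.integral_add (ii kp_cont hu _ _ _ _) (ii (kl_cont 1) hn _ _ _ _)]
  rw [hJ]
  set D : ℝ := Dm (Vd δ L) P w0 with hD
  have hDge : l + 3 / 2 < D := by
    rw [hD, Dm, if_pos hPV, lt_exit_iff hdom.op hLp hdom.bd hPV w0 (by linarith)]
    intro s hs
    rw [hpath]
    apply hin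
    rw [abs_lt]
    constructor <;> linarith [hs.1, hs.2]
  -- pointwise form
  have hκe : ∀ x, κ x = Real.exp (-x) * ((1 - x) * u ((x - (l + 1)) • e0)
      + n ((x - (l + 1)) • e0)) := by
    intro x
    show kp x * u (P + x • ((w0 : S2) : E3)) + kl 1 x * n (P + x • ((w0 : S2) : E3)) = _
    rw [hpath, kp, kl, neg_one_mul]; ring
  have hbig : ∀ x, 1 ≤ x → κ x ≤ N0 * Real.exp (-x) := by
    intro x hx
    rw [hκe, mul_comm N0]
    apply mul_le_mul_of_nonneg_left _ (Real.exp_pos _).le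
    have h1 := (le_abs_self _).trans (hnN ((x - (l + 1)) • e0))
    have h2 : (1 - x) * u ((x - (l + 1)) • e0) ≤ 0 :=
      mul_nonpos_of_nonpos_of_nonneg (by linarith) (hu0 _)
    linarith
  set a : ℝ := l - ε with ha
  set b : ℝ := l + 1 / 2 with hb
  set c : ℝ := l + 3 / 2 with hc
  have ha1 : 1 ≤ a := by linarith
  -- first piece
  have p1 : ∫ x in (0 : ℝ)..a, κ x ≤ (8 * N0 * ε) * a := by
    have h1 : ∫ x in (0 : ℝ)..a, κ x ≤ ∫ _x in (0 : ℝ)..a, 8 * N0 * ε := by
      apply intervalIntegral.integral_mono_on (by linarith) (hκi _ _) intervalIntegrable_const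
      intro x hx
      have hy : 1 + ε ≤ |x - (l + 1)| := by
        rw [abs_of_neg (by linarith [hx.2])]; linarith [hx.2]
      have hG := hGt _ hy
      have hG0 := Gb_nonneg (Vd δ L) ((x - (l + 1)) • e0)
      have hu1 := hup ((x - (l + 1)) • e0)
      have hn1 := (le_abs_self _).trans (hnG ((x - (l + 1)) • e0))
      have hux : u ((x - (l + 1)) • e0) ≤ N0 * (2 * ε) :=
        hu1.trans (mul_le_mul heN hG hG0 hN0p.le)
      have hnx : n ((x - (l + 1)) • e0) ≤ 2 * N0 * (2 * ε) := by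
        refine hn1.trans ?_
        rw [show 8 / e ^ 2 = 2 * N0 by rw [hN0]; ring]
        exact mul_le_mul_of_nonneg_left hG (by positivity)
      rw [hκe]
      have h3 : Real.exp (-x) ≤ 1 := Real.exp_le_one_iff.2 (by linarith [hx.1])
      have h4 : (1 - x) * u ((x - (l + 1)) • e0) ≤ N0 * (2 * ε) := by
        calc (1 - x) * u ((x - (l + 1)) • e0) ≤ 1 * u ((x - (l + 1)) • e0) :=
              mul_le_mul_of_nonneg_right (by linarith [hx.1]) (hu0 _)
          _ ≤ _ := by rw [one_mul]; exact hux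
      have h5 : (1 - x) * u ((x - (l + 1)) • e0) + n ((x - (l + 1)) • e0) ≤ 6 * N0 * ε := by
        linarith
      calc _ ≤ Real.exp (-x) * (6 * N0 * ε) :=
            mul_le_mul_of_nonneg_left h5 (Real.exp_pos _).le
        _ ≤ 1 * (6 * N0 * ε) := mul_le_mul_of_nonneg_right h3 (by positivity)
        _ ≤ _ := by nlinarith
    rw [intervalIntegral.integral_const, smul_eq_mul, sub_zero] at h1
    linarith
  have p2 : ∫ x in a..b, κ x ≤ N0 * (Real.exp (-a) - Real.exp (-b)) :=
    piece (by linarith) (hκi _ _) fun x hx => hbig x (by linarith [hx.1])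
  have p4 : ∫ x in c..D, κ x ≤ N0 * (Real.exp (-c) - Real.exp (-D)) :=
    piece (by linarith) (hκi _ _) fun x hx => hbig x (by linarith [hx.1])
  have p3 : ∫ x in b..c, κ x ≤ (N0 - (l - 1 / 2) * c0) * (Real.exp (-b) - Real.exp (-c)) := by
    apply piece (by linarith) (hκi _ _)
    intro x hx
    have hy : |x - (l + 1)| ≤ 1 / 2 := by
      rw [abs_le]; constructor <;> linarith [hx.1, hx.2]
    have hG := hGc _ hy
    have hu1 : c0 ≤ u ((x - (l + 1)) • e0) := hG.trans (hlow _)
    have hn1 := (le_abs_self _).trans (hnN ((x - (l + 1)) • e0))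
    rw [hκe, mul_comm (N0 - _)]
    apply mul_le_mul_of_nonneg_left _ (Real.exp_pos _).le
    have h2 : (x - 1) * c0 ≤ (x - 1) * u ((x - (l + 1)) • e0) :=
      mul_le_mul_of_nonneg_left hu1 (by linarith [hx.1])
    have h3 : (l - 1 / 2) * c0 ≤ (x - 1) * c0 :=
      mul_le_mul_of_nonneg_right (by linarith [hx.1]) hc0p.le
    linarith
  have hsplit : ∫ x in (0 : ℝ)..D, κ x = (∫ x in (0 : ℝ)..a, κ x) + (∫ x in a..b, κ x)
      + (∫ x in b..c, κ x) + (∫ x in c..D, κ x) := by
    rw [intervalIntegral.integral_add_adjacent_intervals (hκi _ _) (hκi _ _),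
      intervalIntegral.integral_add_adjacent_intervals (hκi _ _) (hκi _ _),
      intervalIntegral.integral_add_adjacent_intervals (hκi _ _) (hκi _ _)]
  rw [hsplit]
  have hl0 : (0 : ℝ) < l := by linarith
  have hexpl := Real.exp_pos (-l)
  have hea : Real.exp (-a) ≤ Real.exp (-l) * Real.exp 1 := by
    rw [← Real.exp_add]; apply Real.exp_le_exp.2; linarith
  have hebc : Real.exp (-b) - Real.exp (-c) = Real.exp (-l) * c1 := by
    rw [hc1, mul_sub, ← Real.exp_add, ← Real.exp_add]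
    congr 2 <;> rw [neg_add] 
  have hDpos := Real.exp_pos (-D)
  have hsum : (8 * N0 * ε) * a ≤ Real.exp (-l) / 2 := by
    have h1 : ε * (16 * N0 * l) ≤ Real.exp (-l) := by
      rwa [le_div_iff₀ (by positivity)] at hε3
    have h2 : (8 * N0 * ε) * a ≤ (8 * N0 * ε) * l :=
      mul_le_mul_of_nonneg_left (by linarith) (by positivity)
    linarith
  have h5 : N0 * Real.exp (-a) ≤ N0 * (Real.exp (-l) * Real.exp 1) :=
    mul_le_mul_of_nonneg_left hea hN0p.le
  have h6 : Real.exp (-l) * (N0 * Real.exp 1 + 1) ≤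
      Real.exp (-l) * ((l - 1 / 2) * (c0 * c1)) := mul_le_mul_of_nonneg_left hl hexpl.le
  have h7 : N0 * (Real.exp (-a) - Real.exp (-b))
      + (N0 - (l - 1 / 2) * c0) * (Real.exp (-b) - Real.exp (-c))
      + N0 * (Real.exp (-c) - Real.exp (-D))
      = N0 * Real.exp (-a) - N0 * Real.exp (-D)
        - (l - 1 / 2) * c0 * (Real.exp (-l) * c1) := by
    rw [hebc]
    have : Real.exp (-b) = Real.exp (-c) + Real.exp (-l) * c1 := by linarith [hebc]
    rw [this]; ring
  have h8 : 0 < N0 * Real.exp (-D) := by positivity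
  linarith [p1, p2, p3, p4, h7, h5, h6, hsum, h8, hexpl]

end Pool.Agent.V1282.TR
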